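import Pool.Agent.W785.FD.Stms

/-! Lower bound and comparison of capacities (piece for MP_024e69_an). -/

set_option autoImplicit false

open MeasureTheory Metric Set Filter
open scoped ENNReal NNReal Topology
open Pool.Agent.W785.FD

namespace Pool.Agent.W451.FD.CLBCMP

universe u

/-- Truncation to `[0, 1]`. -/
noncomputable def tr (s : ℝ) : ℝ := max 0 (min 1 s)

lemma tr_nonneg (s : ℝ) : 0 ≤ tr s := le_max_left _ _

lemma tr_le_one (s : ℝ) : tr s ≤ 1 := max_le zero_le_one (min_le_left _ _)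

lemma tr_lip (s t : ℝ) : |tr s - tr t| ≤ |s - t| := by
  unfold tr
  calc |max 0 (min 1 s) - max 0 (min 1 t)| ≤ |min 1 s - min 1 t| := by
        simpa using abs_max_sub_max_le_abs (min 1 s) (min 1 t) 0 |> fun h => by
          simpa [max_comm] using h
    _ ≤ |s - t| := by
        have := abs_min_sub_min_le_max 1 s 1 t
        simpa using this

lemma tr_of_one_le {s : ℝ} (h : 1 ≤ s) : tr s = 1 := by
  unfold tr
  rw [min_eq_left h, max_eq_right zero_le_one]

lemma tr_of_nonpos {s : ℝ} (h : s ≤ 0) : tr s = 0 := by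
  unfold tr
  rw [min_eq_right (h.trans zero_le_one), max_eq_left h]

lemma tr_zero : tr 0 = 0 := tr_of_nonpos le_rfl

lemma continuous_tr : Continuous tr := by
  unfold tr
  fun_prop

lemma pos_of_tr_ne_zero {s : ℝ} (h : tr s ≠ 0) : 0 < s := by
  by_contra hs
  exact h (tr_of_nonpos (not_lt.mp hs))

variable {X : Type u} [MetricSpace X] [MeasurableSpace X]

lemma ug_tr {u : X → ℝ} {g : X → ℝ≥0∞} (h : UG u g) : UG (fun y => tr (u y)) g :=
  ⟨h.1, fun c => (ENNReal.ofReal_le_ofReal (tr_lip _ _)).trans (h.2 c)⟩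

/-- The common part. -/
lemma key {μ : Measure X} {p K r R : ℝ} {x : X} (hR : R ≤ 4 * r)
    (hS : ∀ (u : X → ℝ) (g : X → ℝ≥0∞), AEMeasurable u μ → (∀ y, 0 ≤ u y) → (∀ y, u y ≤ 1) →
      UG u g → (∀ y, y ∉ ball x (4 * r) → u y = 0) →
        ∫⁻ y, (ENNReal.ofReal (u y)) ^ p ∂μ ≤ ENNReal.ofReal (K * r ^ p) * ∫⁻ y, g y ^ p ∂μ)
    {u : X → ℝ} (hu : AEMeasurable u μ) {g : X → ℝ≥0∞} (hg : UG u g)
    (h0 : ∀ y, y ∉ ball x R → u y = 0) :
    ∫⁻ y, (ENNReal.ofReal (tr (u y))) ^ p ∂μ ≤ ENNReal.ofReal (K * r ^ p) * ∫⁻ y, g y ^ p ∂μ := by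
  refine hS (fun y => tr (u y)) g (continuous_tr.measurable.comp_aemeasurable hu)
    (fun y => tr_nonneg _) (fun y => tr_le_one _) (ug_tr hg) ?_
  intro y hy
  have : u y = 0 := h0 y (fun h => hy (ball_subset_ball hR h))
  simp only [this, tr_zero]

theorem clb (μ : Measure X) (p : ℝ) (h1 : S_SOB μ p) (h2 : S_STR μ p) :
    S_CLB μ p := by
  obtain ⟨K, hK, hSOB⟩ := h1
  refine ⟨K, hK, fun x => ?_⟩
  obtain ⟨r0, hr0, hS⟩ := hSOB x
  refine ⟨r0, hr0, fun r hr hrr A => ?_⟩
  have hpos : 0 < K * r ^ p := mul_pos hK (Real.rpow_pos_of_pos hr p)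
  rw [mul_comm]
  refine ENNReal.div_le_iff_le_mul (Or.inl ?_) (Or.inl ENNReal.ofReal_ne_top) |>.mp ?_
  · simpa using hpos
  unfold capB
  refine le_iInf fun u => le_iInf fun hu => le_iInf fun _ => le_iInf fun hA => le_iInf fun h0 => ?_
  refine le_of_forall_gt_imp_ge_of_dense fun t ht => ?_
  obtain ⟨g, hg, hgt⟩ := h2 u t ht
  refine le_trans ?_ hgt.le
  refine ENNReal.div_le_of_le_mul ?_
  rw [mul_comm]
  refine le_trans ?_ (key (by linarith) (hS r hr hrr) hu hg h0)
  have hm : AEMeasurable (fun y => (ENNReal.ofReal (tr (u y))) ^ p) μ :=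
    ((continuous_tr.measurable.comp_aemeasurable hu).ennreal_ofReal).pow_const p
  refine le_trans ?_ (mul_meas_ge_le_lintegral₀ hm 1)
  rw [one_mul]
  refine measure_mono ?_
  intro y hy
  have : tr (u y) = 1 := tr_of_one_le (hA y hy)
  simp [this]

omit [MeasurableSpace X] in
lemma eta_lip (x : X) {r : ℝ} (hr : 0 < r) (a b : X) :
    |tr (2 - dist a x / r) - tr (2 - dist b x / r)| ≤ dist a b / r := by
  refine (tr_lip _ _).trans ?_
  have h1 : (2 - dist a x / r) - (2 - dist b x / r) = (dist b x - dist a x) / r := by ring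
  rw [h1, abs_div, abs_of_pos hr]
  refine div_le_div_of_nonneg_right ?_ hr.le
  have := abs_dist_sub_le b a x
  rwa [dist_comm b a] at this

lemma ug_eta [OpensMeasurableSpace X] (x : X) {r : ℝ} (hr : 0 < r) :
    UG (fun y => tr (2 - dist y x / r)) (fun _ => ENNReal.ofReal (1 / r)) := by
  refine ⟨measurable_const, fun c => ?_⟩
  unfold CrvIneq Crv.int
  refine (ENNReal.ofReal_le_ofReal (eta_lip x hr _ _)).trans ?_
  rw [lintegral_const, Measure.restrict_apply MeasurableSet.univ, univ_inter, Real.volume_Icc,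
    sub_zero, ← ENNReal.ofReal_mul (by positivity)]
  refine ENNReal.ofReal_le_ofReal ?_
  have h1 : dist (c.γ 0) (c.γ c.l) ≤ c.l := by
    have := c.lip.dist_le_mul 0 c.l
    simpa [Real.dist_eq, abs_of_nonneg c.nonneg] using this
  calc dist (c.γ 0) (c.γ c.l) / r ≤ c.l / r := div_le_div_of_nonneg_right h1 hr.le
    _ = 1 / r * c.l := by ring

lemma ug_eta' [OpensMeasurableSpace X] (h4 : S_LOCS X) (x : X) {r : ℝ} (hr : 0 < r) :
    UG (fun y => tr (2 - dist y x / r))
      ((ball x (2 * r)).indicator (fun _ => ENNReal.ofReal (1 / r))) := by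
  refine h4 _ _ (ug_eta x hr) ?_ _ measurableSet_ball ?_
  · intro c
    unfold Crv.int
    rw [lintegral_const, Measure.restrict_apply MeasurableSet.univ, univ_inter, Real.volume_Icc,
      ← ENNReal.ofReal_mul (by positivity)]
    exact ENNReal.ofReal_lt_top
  · intro y hy
    have h := pos_of_tr_ne_zero hy
    rw [mem_ball]
    have : dist y x / r < 2 := by linarith
    rwa [div_lt_iff₀ hr] at this

lemma abs_min_sub_min_le (a b a' b' : ℝ) : |min a b - min a' b'| ≤ |a - a'| + |b - b'| := by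
  refine (abs_min_sub_min_le_max a b a' b').trans ?_
  exact max_le (le_add_of_nonneg_right (abs_nonneg _)) (le_add_of_nonneg_left (abs_nonneg _))

lemma crv_measurable (c : Crv X) [BorelSpace X] : Measurable c.γ :=
  c.lip.continuous.measurable

lemma ug_min [BorelSpace X] {u v : X → ℝ} {g k : X → ℝ≥0∞} (hu : UG u g) (hv : UG v k) :
    UG (fun y => min (tr (2 * tr (u y) - 1)) (v y)) (fun y => 2 * g y + k y) := by
  refine ⟨(hu.1.const_mul 2).add hv.1, fun c => ?_⟩
  unfold CrvIneq Crv.int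
  have hm0 : Measurable (fun t => g (c.γ t)) := hu.1.comp (crv_measurable c)
  have hm : Measurable (fun t => 2 * g (c.γ t)) := hm0.const_mul 2
  rw [lintegral_add_left hm, lintegral_const_mul _ hm0]
  have h1 : |min (tr (2 * tr (u (c.γ 0)) - 1)) (v (c.γ 0)) -
      min (tr (2 * tr (u (c.γ c.l)) - 1)) (v (c.γ c.l))| ≤
      2 * |u (c.γ 0) - u (c.γ c.l)| + |v (c.γ 0) - v (c.γ c.l)| := by
    refine (abs_min_sub_min_le _ _ _ _).trans ?_
    refine add_le_add ?_ le_rfl
    refine (tr_lip _ _).trans ?_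
    have h2 : (2 * tr (u (c.γ 0)) - 1) - (2 * tr (u (c.γ c.l)) - 1) =
      2 * (tr (u (c.γ 0)) - tr (u (c.γ c.l))) := by ring
    rw [h2, abs_mul, abs_of_pos (by norm_num : (0 : ℝ) < 2)]
    exact mul_le_mul_of_nonneg_left (tr_lip _ _) (by norm_num)
  refine (ENNReal.ofReal_le_ofReal h1).trans ?_
  rw [ENNReal.ofReal_add (by positivity) (abs_nonneg _), ENNReal.ofReal_mul (by norm_num)]
  refine add_le_add ?_ (hv.2 c)
  have h3 := hu.2 c
  unfold CrvIneq Crv.int at h3
  refine le_trans (mul_le_mul_right h3 _) ?_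
  simp

lemma wu_of_ug {μ : Measure X} {p : ℝ} (hp : 1 < p) {u : X → ℝ} {g : X → ℝ≥0∞} (h : UG u g) :
    WU μ p u g := by
  refine ⟨h.1, fun _ => 0, measurable_const, ?_, fun c => Or.inl (h.2 c)⟩
  have h0 : (0 : ℝ≥0∞) ^ p = 0 := ENNReal.zero_rpow_of_pos (by linarith)
  simp [h0]

/-- pointwise bound -/
lemma pw {p : ℝ} (hp : 1 < p) (a b : ℝ≥0∞) :
    (2 * a + b) ^ p ≤ 2 ^ (p - 1) * (2 ^ p * a ^ p + b ^ p) := by
  refine (ENNReal.rpow_add_le_mul_rpow_add_rpow (2 * a) b hp.le).trans ?_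
  rw [ENNReal.mul_rpow_of_nonneg _ _ (by linarith : (0 : ℝ) ≤ p)]

theorem cmp [BorelSpace X] (μ : Measure X) (p D : ℝ) (hp : 1 < p) (hD : Dbl μ D)
    (h1 : S_SOB μ p) (h2 : S_STR μ p)
    (h3 : S_LOC μ p) (h4 : S_LOCS X) (h5 : S_WU μ p) : S_CMP μ p := by
  obtain ⟨K, hK, hSOB⟩ := h1
  have hp0 : (0 : ℝ) ≤ p := by linarith
  have hp1 : (0 : ℝ) < p := by linarith
  have h2p : (0 : ℝ) < 2 ^ p := Real.rpow_pos_of_pos (by norm_num) p
  have h2p1 : (0 : ℝ) < 2 ^ (p - 1) := Real.rpow_pos_of_pos (by norm_num) _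
  refine ⟨2 ^ (p - 1) * (2 ^ p + 2 ^ p * K), by positivity, fun x => ?_⟩
  obtain ⟨r0, hr0, hS⟩ := hSOB x
  refine ⟨r0, hr0, fun r hr hrr A => ?_⟩
  have hKpos : 0 < 2 ^ (p - 1) * (2 ^ p + 2 ^ p * K) := by positivity
  rw [mul_comm (ENNReal.ofReal _) (capB _ _ _ _ _)]
  refine ENNReal.div_le_iff_le_mul (Or.inl ?_) (Or.inl ENNReal.ofReal_ne_top) |>.mp ?_
  · simpa using hKpos
  rw [show capB μ p (A ∩ ball x r) x (4 * r) = _ from rfl]
  conv_rhs => unfold capB
  refine le_iInf fun u => le_iInf fun hu => le_iInf fun _ => le_iInf fun hA => le_iInf fun h0 => ?_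
  refine le_of_forall_gt_imp_ge_of_dense fun t ht => ?_
  obtain ⟨g, hg, hgt⟩ := h2 u t ht
  refine le_trans ?_ hgt.le
  have hgfin : ∫⁻ y, g y ^ p ∂μ < ∞ := hgt.trans_le le_top
  refine ENNReal.div_le_of_le_mul ?_
  rw [mul_comm (∫⁻ y, g y ^ p ∂μ)]
  have hkey := key (by linarith) (hS r hr hrr) hu hg h0
  -- the test function
  set η : X → ℝ := fun y => tr (2 - dist y x / r) with hη
  set k : X → ℝ≥0∞ := (ball x (2 * r)).indicator (fun _ => ENNReal.ofReal (1 / r)) with hk
  have hηk : UG η k := ug_eta' h4 x hr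
  set f : X → ℝ := fun y => min (tr (2 * tr (u y) - 1)) (η y) with hf
  have hfug : UG f (fun y => 2 * g y + k y) := ug_min hg hηk
  have htru : AEMeasurable (fun y => tr (u y)) μ := continuous_tr.measurable.comp_aemeasurable hu
  have hηm : Measurable η := by
    have : Continuous η := by
      rw [hη]
      exact continuous_tr.comp (by fun_prop)
    exact this.measurable
  have hfm : AEMeasurable f μ := by
    refine AEMeasurable.min ?_ hηm.aemeasurable
    exact continuous_tr.measurable.comp_aemeasurable ((htru.const_mul 2).sub_const 1)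
  have hf0 : ∀ y, 0 ≤ f y := fun y => le_min (tr_nonneg _) (tr_nonneg _)
  have hf1 : ∀ y, f y ≤ 1 := fun y => (min_le_left _ _).trans (tr_le_one _)
  have hfE : ∀ y ∈ A ∩ ball x r, f y = 1 := by
    intro y hy
    have e1 : tr (u y) = 1 := tr_of_one_le (hA y hy)
    have e2 : η y = 1 := by
      refine tr_of_one_le ?_
      have : dist y x < r := hy.2
      have : dist y x / r < 1 := by rwa [div_lt_one hr]
      linarith
    have e3 : tr (2 * tr (u y) - 1) = 1 := by
      rw [e1]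
      exact tr_of_one_le (by norm_num)
    simp only [hf, e3, e2, min_self]
  have hfne : ∀ y, f y ≠ 0 → 1 / 2 ≤ tr (u y) ∧ y ∈ ball x (2 * r) := by
    intro y hy
    have hpos : 0 < f y := lt_of_le_of_ne (hf0 y) (Ne.symm hy)
    have ha : 0 < tr (2 * tr (u y) - 1) := hpos.trans_le (min_le_left _ _)
    have hb : 0 < η y := hpos.trans_le (min_le_right _ _)
    constructor
    · have := pos_of_tr_ne_zero ha.ne'
      linarith
    · have h := pos_of_tr_ne_zero hb.ne'
      rw [mem_ball]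
      have : dist y x / r < 2 := by linarith
      rwa [div_lt_iff₀ hr] at this
  have hfout : ∀ y, y ∉ ball x (2 * r) → f y = 0 := by
    intro y hy
    by_contra h
    exact hy (hfne y h).2
  have hfint : ∫⁻ y, (ENNReal.ofReal |f y|) ^ p ∂μ < ∞ := by
    have : ∀ y, (ENNReal.ofReal |f y|) ^ p ≤ (ball x (2 * r)).indicator (fun _ => (1 : ℝ≥0∞)) y := by
      intro y
      by_cases hy : y ∈ ball x (2 * r)
      · rw [indicator_of_mem hy]
        refine ENNReal.rpow_le_one ?_ hp0
        rw [abs_of_nonneg (hf0 y)]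
        exact ENNReal.ofReal_le_one.mpr (hf1 y)
      · rw [hfout y hy, abs_zero, ENNReal.ofReal_zero, ENNReal.zero_rpow_of_pos hp1]
        exact zero_le
    refine (lintegral_mono this).trans_lt ?_
    rw [lintegral_indicator measurableSet_ball, lintegral_const]
    rw [Measure.restrict_apply MeasurableSet.univ, univ_inter, one_mul]
    exact hD.fin x _
  -- the weak upper gradient
  have hkp : ∫⁻ y, k y ^ p ∂μ < ∞ := by
    have : ∀ y, k y ^ p = (ball x (2 * r)).indicator (fun _ => ENNReal.ofReal (1 / r) ^ p) y := by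
      intro y
      by_cases hy : y ∈ ball x (2 * r)
      · rw [hk, indicator_of_mem hy, indicator_of_mem hy]
      · rw [hk, indicator_of_notMem hy, indicator_of_notMem hy, ENNReal.zero_rpow_of_pos hp1]
    simp_rw [this]
    rw [lintegral_indicator measurableSet_ball, lintegral_const]
    rw [Measure.restrict_apply MeasurableSet.univ, univ_inter]
    exact ENNReal.mul_lt_top (ENNReal.rpow_lt_top_of_nonneg hp0 ENNReal.ofReal_ne_top)
      (hD.fin x _)
  have hgm : Measurable g := hg.1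
  have hkm : Measurable k := hηk.1
  have hg'fin : ∫⁻ y, (2 * g y + k y) ^ p ∂μ < ∞ := by
    refine (lintegral_mono fun y => pw hp (g y) (k y)).trans_lt ?_
    have e1 : Measurable (fun y => g y ^ p) := hgm.pow_const p
    have e2 : Measurable (fun y => k y ^ p) := hkm.pow_const p
    have e3 : Measurable (fun y => 2 ^ p * g y ^ p) := e1.const_mul _
    have e4 : Measurable (fun y => 2 ^ p * g y ^ p + k y ^ p) := e3.add e2
    rw [lintegral_const_mul _ e4, lintegral_add_left e3, lintegral_const_mul _ e1]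
    refine ENNReal.mul_lt_top (ENNReal.rpow_lt_top_of_nonneg (by linarith) (by norm_num)) ?_
    refine ENNReal.add_lt_top.mpr ⟨?_, hkp⟩
    exact ENNReal.mul_lt_top (ENNReal.rpow_lt_top_of_nonneg hp0 (by norm_num)) hgfin
  -- measurable set
  set v : X → ℝ := htru.mk _ with hv
  have hvm : Measurable v := htru.measurable_mk
  have hvae : (fun y => tr (u y)) =ᵐ[μ] v := htru.ae_eq_mk
  set S : Set X := {y | 1 / 2 ≤ v y} ∩ ball x (2 * r) with hSdef
  have hSm : MeasurableSet S := (measurableSet_le measurable_const hvm).inter measurableSet_ball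
  have hSnull : μ ({y | f y ≠ 0} \ S) = 0 := by
    refine measure_mono_null ?_ hvae
    intro y hy
    rw [mem_compl_iff, mem_ofPred_eq]
    intro he
    refine hy.2 ⟨?_, (hfne y hy.1).2⟩
    have : 1 / 2 ≤ tr (u y) := (hfne y hy.1).1
    rw [mem_ofPred_eq, ← he]
    exact this
  have hWU := h3 f _ (wu_of_ug hp hfug) hg'fin S hSm hSnull
  have hWUG := (h5 _ _).mpr hWU
  have hEn : En μ p f ≤ ∫⁻ y, (S.indicator (fun y => 2 * g y + k y) y) ^ p ∂μ :=
    iInf_le_of_le _ (iInf_le _ hWUG)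
  have hcap : capB μ p (A ∩ ball x r) x (2 * r) ≤ En μ p f := by
    unfold capB
    exact iInf_le_of_le f (iInf_le_of_le hfm (iInf_le_of_le hfint
      (iInf_le_of_le (fun y hy => (hfE y hy).ge) (iInf_le _ hfout))))
  refine hcap.trans (hEn.trans ?_)
  -- estimate
  have hmeas : ENNReal.ofReal (1 / r) ^ p * μ S ≤
      ENNReal.ofReal (2 ^ p * K) * ∫⁻ y, g y ^ p ∂μ := by
    have a1 : μ S ≤ μ {y | ENNReal.ofReal (1 / 2) ^ p ≤ (ENNReal.ofReal (v y)) ^ p} := by
      refine measure_mono ?_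
      intro y hy
      exact ENNReal.rpow_le_rpow (ENNReal.ofReal_le_ofReal hy.1) hp0
    have a2 : ENNReal.ofReal (1 / 2) ^ p * μ S ≤ ∫⁻ y, (ENNReal.ofReal (v y)) ^ p ∂μ := by
      refine (mul_le_mul_right a1 _).trans ?_
      exact mul_meas_ge_le_lintegral₀ ((hvm.ennreal_ofReal.pow_const p).aemeasurable) _
    have a3 : ∫⁻ y, (ENNReal.ofReal (v y)) ^ p ∂μ = ∫⁻ y, (ENNReal.ofReal (tr (u y))) ^ p ∂μ := by
      refine lintegral_congr_ae ?_
      filter_upwards [hvae] with y hy
      rw [hy]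
    rw [a3] at a2
    have a4 := a2.trans hkey
    have a5 : ENNReal.ofReal (1 / r) ^ p = ENNReal.ofReal (2 ^ p / r ^ p) *
        ENNReal.ofReal (1 / 2) ^ p := by
      rw [ENNReal.ofReal_rpow_of_pos (by positivity), ENNReal.ofReal_rpow_of_pos (by positivity),
        ← ENNReal.ofReal_mul (by positivity)]
      congr 1
      rw [Real.div_rpow (by norm_num) hr.le, Real.div_rpow (by norm_num) (by norm_num),
        Real.one_rpow]
      field_simp
    rw [a5, mul_assoc]
    refine (mul_le_mul_right a4 _).trans ?_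
    rw [← mul_assoc, ← ENNReal.ofReal_mul (by positivity)]
    refine mul_le_mul_left (ENNReal.ofReal_le_ofReal (le_of_eq ?_)) _
    have : r ^ p ≠ 0 := (Real.rpow_pos_of_pos hr p).ne'
    field_simp
  have hpt : ∀ y, (S.indicator (fun y => 2 * g y + k y) y) ^ p ≤
      2 ^ (p - 1) * (2 ^ p * g y ^ p + S.indicator (fun _ => ENNReal.ofReal (1 / r) ^ p) y) := by
    intro y
    by_cases hy : y ∈ S
    · rw [indicator_of_mem hy, indicator_of_mem hy]
      refine (pw hp (g y) (k y)).trans ?_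
      rw [hk, indicator_of_mem hy.2]
    · rw [indicator_of_notMem hy, ENNReal.zero_rpow_of_pos hp1]
      exact zero_le
  refine (lintegral_mono hpt).trans ?_
  have e1 : Measurable (fun y => g y ^ p) := hgm.pow_const p
  have e2 : Measurable (fun y => S.indicator (fun _ => ENNReal.ofReal (1 / r) ^ p) y) :=
    measurable_const.indicator hSm
  have e3 : Measurable (fun y => 2 ^ p * g y ^ p) := e1.const_mul _
  have e4 : Measurable (fun y => 2 ^ p * g y ^ p +
      S.indicator (fun _ => ENNReal.ofReal (1 / r) ^ p) y) := e3.add e2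
  rw [lintegral_const_mul _ e4, lintegral_add_left e3,
    lintegral_const_mul _ e1, lintegral_indicator hSm, lintegral_const,
    Measure.restrict_apply MeasurableSet.univ, univ_inter]
  rw [ENNReal.ofReal_mul h2p1.le, ENNReal.ofReal_add h2p.le (by positivity), mul_assoc, add_mul]
  have b1 : ENNReal.ofReal ((2 : ℝ) ^ (p - 1)) = 2 ^ (p - 1) := by
    rw [← ENNReal.ofReal_rpow_of_pos (by norm_num)]
    norm_num
  have b2 : ENNReal.ofReal ((2 : ℝ) ^ p) = 2 ^ p := by
    rw [← ENNReal.ofReal_rpow_of_pos (by norm_num)]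
    norm_num
  rw [b1, b2]
  refine mul_le_mul_right (add_le_add le_rfl hmeas) _

theorem main {X : Type*} [MetricSpace X] [ProperSpace X] [MeasurableSpace X] [BorelSpace X]
    (μ : Measure X) (p D : ℝ) (hp : 1 < p) (hD : Dbl μ D) (h1 : S_SOB μ p) (h2 : S_STR μ p)
    (h3 : S_LOC μ p) (h4 : S_LOCS X) (h5 : S_WU μ p) : S_CLB μ p ∧ S_CMP μ p :=
  ⟨clb μ p h1 h2, cmp μ p D hp hD h1 h2 h3 h4 h5⟩

end Pool.Agent.W451.FD.CLBCMP
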